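import Pool.Agent.H985.Dense.Convex2

/-!
# Shortest epsilon-dense curves on convex surfaces

For every convex surface `S = ∂K` of `ℝ³` of area `A` one has `L_S(ε) = A / (2 ε) + o(1 / ε)`.
The definitions (`IsPath`, `pathLength`, `intrinsicDist`, `IsDenseCurve`, `minLength`) are in the
file `Pool.Agent.H985.Dense.Defs`; `μHE[2]` is Mathlib's two-dimensional Hausdorff measure,
normalised to be Lebesgue measure on planes, so `μHE[2] (frontier K)` is the surface area.
-/

set_option autoImplicit false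
open MeasureTheory Set Metric Filter Asymptotics
open scoped ENNReal Topology
open Pool.Agent.H985.Dense

namespace Pool.Agent.Results.MP_523900_gt.DenseCurves

lemma minLength_anti {E : Type*} [MetricSpace E] (S : Set E) {ε ε' : ℝ} (h : ε ≤ ε') :
    minLength S ε' ≤ minLength S ε := by
  unfold minLength
  refine le_iInf₂ fun γ hγ => iInf₂_le γ ⟨hγ.1, hγ.2.1, fun x hx => ?_⟩
  obtain ⟨t, ht, hd⟩ := hγ.2.2 x hx
  exact ⟨t, ht, hd.trans (ENNReal.ofReal_le_ofReal h)⟩

/-- For every convex body `K ⊆ ℝ³`, with `S = ∂K` of area `A = μHE[2] S < ∞`: the number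
`L_S(ε)` is finite for every `ε > 0`, `ε L_S(ε) → A / 2`, and
`L_S(ε) = (A / 2) ε⁻¹ + o(ε⁻¹)` as `ε → 0⁺`. -/
theorem result (K : Set (EuclideanSpace ℝ (Fin 3))) (hconv : Convex ℝ K) (hcomp : IsCompact K)
    (hint : (interior K).Nonempty) :
    μHE[2] (frontier K) ≠ ⊤ ∧ (∀ ε : ℝ, 0 < ε → minLength (frontier K) ε ≠ ⊤) ∧
    Tendsto (fun ε : ℝ => ENNReal.ofReal ε * minLength (frontier K) ε) (𝓝[>] 0)
      (𝓝 (μHE[2] (frontier K) / 2)) ∧
    (fun ε : ℝ => (minLength (frontier K) ε).toReal - (μHE[2] (frontier K)).toReal / 2 * ε⁻¹)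
      =o[𝓝[>] 0] (fun ε : ℝ => ε⁻¹) := by
  obtain ⟨z0, hz0⟩ := hint
  obtain ⟨C, D, hsys, hne⟩ := convex_chartSystem hconv hcomp hz0
  have hfin := hsys.finite
  have hlim := hsys.tendsto hne
  have hA : μHE[2] (frontier K) / 2 ≠ ⊤ := ENNReal.div_ne_top hfin (by norm_num)
  have hL : ∀ ε : ℝ, 0 < ε → minLength (frontier K) ε ≠ ⊤ := by
    intro ε hε
    have h1 : ∀ᶠ d in 𝓝[>] (0:ℝ), ENNReal.ofReal d * minLength (frontier K) d < ⊤ :=
      hlim.eventually (gt_mem_nhds hA.lt_top)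
    obtain ⟨d, hd1, hd2⟩ := (h1.and (Ioo_mem_nhdsGT hε)).exists
    have hd0 : ENNReal.ofReal d ≠ 0 := (ENNReal.ofReal_pos.mpr hd2.1).ne'
    have h2 : minLength (frontier K) d ≠ ⊤ := by
      intro h
      rw [h, ENNReal.mul_top hd0] at hd1
      exact lt_irrefl _ hd1
    exact ne_top_of_le_ne_top h2 (minLength_anti _ hd2.2.le)
  refine ⟨hfin, hL, hlim, ?_⟩
  have hreal : Tendsto (fun ε : ℝ => ε * (minLength (frontier K) ε).toReal) (𝓝[>] 0)
      (𝓝 ((μHE[2] (frontier K)).toReal / 2)) := by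
    have h1 := (ENNReal.tendsto_toReal hA).comp hlim
    have h2 : (μHE[2] (frontier K) / 2).toReal = (μHE[2] (frontier K)).toReal / 2 := by
      rw [ENNReal.toReal_div]; norm_num
    rw [h2] at h1
    refine h1.congr' ?_
    filter_upwards [self_mem_nhdsWithin] with ε hε
    have hε0 : (0:ℝ) < ε := hε
    simp only [Function.comp, ENNReal.toReal_mul, ENNReal.toReal_ofReal hε0.le]
  rw [isLittleO_iff]
  intro c hc
  have h3 : ∀ᶠ ε in 𝓝[>] (0:ℝ), |ε * (minLength (frontier K) ε).toReal -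
      (μHE[2] (frontier K)).toReal / 2| ≤ c := by
    have := (Metric.tendsto_nhds.mp hreal) c hc
    filter_upwards [this] with ε hε
    rw [Real.dist_eq] at hε
    exact hε.le
  filter_upwards [h3, self_mem_nhdsWithin] with ε h4 hε
  have hε0 : (0:ℝ) < ε := hε
  have e : (minLength (frontier K) ε).toReal - (μHE[2] (frontier K)).toReal / 2 * ε⁻¹ =
      (ε * (minLength (frontier K) ε).toReal - (μHE[2] (frontier K)).toReal / 2) * ε⁻¹ := by
    field_simp
  rw [e, norm_mul, Real.norm_eq_abs]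
  exact mul_le_mul_of_nonneg_right h4 (norm_nonneg _)

end Pool.Agent.Results.MP_523900_gt.DenseCurves
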